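import Mathlib

/-!
The degree zero part of chromatic symmetric homology of the disjoint union of two edges is
concentrated in degree zero.
-/

open Finset

namespace Pool.Agent.Results.MP_5bcb58_co.TwoEdges

/-- The edges of `G`, as pairs `(i, j)` with `i < j`. -/
noncomputable def edges {n : ℕ} (G : SimpleGraph (Fin n)) : Finset (Fin n × Fin n) := by
  classical
  exact univ.filter fun e => e.1 < e.2 ∧ G.Adj e.1 e.2

/-- The lexicographic order of the edges. -/
def lexLt {n : ℕ} (f e : Fin n × Fin n) : Prop := f.1 < e.1 ∨ (f.1 = e.1 ∧ f.2 < e.2)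

instance {n : ℕ} (f e : Fin n × Fin n) : Decidable (lexLt f e) := by unfold lexLt; infer_instance

/-- The group `S_{β(F)}` of all permutations preserving each component of `([n], F)`. -/
def young {n : ℕ} (F : Finset (Fin n × Fin n)) : Subgroup (Equiv.Perm (Fin n)) where
  carrier := {σ | ∀ v, Relation.EqvGen (fun a b => (a, b) ∈ F) v (σ v)}
  mul_mem' := by
    intro a b ha hb v
    exact (hb v).trans _ _ _ (ha (b v))
  one_mem' := fun v => Relation.EqvGen.refl v
  inv_mem' := by
    intro a ha v
    have := ha (a⁻¹ v)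
    rw [show a (a⁻¹ v) = v from a.apply_symm_apply v] at this
    exact this.symm

lemma young_mono {n : ℕ} {F F' : Finset (Fin n × Fin n)} (h : F' ⊆ F) : young F' ≤ young F := by
  intro σ hσ v
  exact (hσ v).mono fun a b hab => h hab

/-- A family with one component for every set `F` of pairs: an integer valued function on the set
`S_n / S_{β(F)}`, i.e. an element of the free module `M_F` with this basis. -/
def Family (n : ℕ) : Type :=
  (F : Finset (Fin n × Fin n)) → (Equiv.Perm (Fin n) ⧸ young F) → ℤ

/-- `c` is an element of `C_k(G)`: its component at `F` vanishes unless `F` is a set of `k` edges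
of `G`. -/
def IsChain {n : ℕ} (G : SimpleGraph (Fin n)) (k : ℕ) (c : Family n) : Prop :=
  ∀ F, ¬ (F ⊆ edges G ∧ #F = k) → ∀ q, c F q = 0

/-- The transfer map `M_F → M_{F'}` for `F' = F - e`, which sends the coset `g S_{β(F)}` to the sum
of the cosets `g h S_{β(F')}` contained in it: a function on `S_n / S_{β(F)}` is pulled back along
the projection `S_n / S_{β(F')} → S_n / S_{β(F)}`. -/
def transfer {n : ℕ} {F F' : Finset (Fin n × Fin n)} (h : F' ⊆ F)
    (f : (Equiv.Perm (Fin n) ⧸ young F) → ℤ) : (Equiv.Perm (Fin n) ⧸ young F') → ℤ :=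
  fun q => f (Subgroup.quotientMapOfLE (young_mono h) q)

/-- The differential. -/
noncomputable def diff {n : ℕ} (G : SimpleGraph (Fin n)) (c : Family n) : Family n := fun F' q =>
  ∑ e ∈ edges G \ F', (-1) ^ #{f ∈ insert e F' | lexLt f e} *
    transfer (subset_insert e F') (c (insert e F')) q

/-- `H_k(G; ℤ) ≠ 0`: some cycle of degree `k` is not a boundary. -/
def HomologyNe {n : ℕ} (G : SimpleGraph (Fin n)) (k : ℕ) : Prop :=
  ∃ c, IsChain G k c ∧ (∀ F q, diff G c F q = 0) ∧
    ¬ ∃ b, IsChain G (k + 1) b ∧ ∀ F q, diff G b F q = c F q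

/-- The vertex set `B` induces a connected subgraph with no cut vertex. -/
def NoCut {n : ℕ} (G : SimpleGraph (Fin n)) (B : Set (Fin n)) : Prop :=
  (G.induce B).Connected ∧ ∀ v ∈ B, (G.induce (B \ {v})).Preconnected

/-- The number of blocks. -/
noncomputable def blocks {n : ℕ} (G : SimpleGraph (Fin n)) : ℕ :=
  {B : Set (Fin n) | Maximal (NoCut G) B}.ncard

/-! ### The example -/

/-- Two disjoint edges. -/
def G2 : SimpleGraph (Fin 4) where
  Adj x y := x ≠ y ∧ x.val / 2 = y.val / 2
  symm := ⟨fun _ _ h => ⟨h.1.symm, h.2.symm⟩⟩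
  loopless := ⟨fun x h => h.1 rfl⟩

lemma edges_G2 : edges G2 = {(0, 1), (2, 3)} := by
  classical
  ext e
  unfold edges
  rw [mem_filter]
  obtain ⟨a, b⟩ := e
  simp only [mem_univ, true_and, G2, mem_insert, mem_singleton]
  revert a b
  decide

lemma cls_of_reach {B : Set (Fin 4)} {x y : B} (h : (G2.induce B).Reachable x y) :
    x.1.val / 2 = y.1.val / 2 := by
  rw [SimpleGraph.reachable_iff_reflTransGen] at h
  induction h with
  | refl => rfl
  | tail _ hbc ih => exact ih.trans hbc.2

lemma pre_of_cls {B : Set (Fin 4)} (h : ∀ x ∈ B, ∀ y ∈ B, x.val / 2 = y.val / 2) :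
    (G2.induce B).Preconnected := by
  intro x y
  by_cases hxy : x = y
  · rw [hxy]
  · refine SimpleGraph.Adj.reachable ?_
    exact ⟨fun h' => hxy (Subtype.ext h'), h _ x.2 _ y.2⟩

/-- The class of vertices. -/
def cl (i : ℕ) : Set (Fin 4) := {x | x.val / 2 = i}

lemma noCut_cl {i : ℕ} (hi : i < 2) : NoCut G2 (cl i) := by
  refine ⟨(SimpleGraph.connected_iff _).2 ⟨pre_of_cls fun x hx y hy => ?_, ?_⟩,
    fun v _ => pre_of_cls fun x hx y hy => ?_⟩
  · have h1 : x.val / 2 = i := hx
    have h2 : y.val / 2 = i := hy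
    rw [h1, h2]
  · exact ⟨⟨⟨2 * i, by omega⟩, by change 2 * i / 2 = i; omega⟩⟩
  · have h1 : x.val / 2 = i := hx.1
    have h2 : y.val / 2 = i := hy.1
    rw [h1, h2]

lemma blocks_G2 : blocks G2 = 2 := by
  have key : {B : Set (Fin 4) | Maximal (NoCut G2) B} = {cl 0, cl 1} := by
    have hsub : ∀ B, NoCut G2 B → ∃ i < 2, B ⊆ cl i := by
      intro B hB
      obtain ⟨x⟩ := hB.1.nonempty
      refine ⟨x.1.val / 2, by omega, fun y hy => ?_⟩
      exact (cls_of_reach (hB.1.preconnected x ⟨y, hy⟩)).symm
    ext B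
    rw [Set.mem_setOf_eq, Set.mem_insert_iff, Set.mem_singleton_iff]
    constructor
    · intro hB
      obtain ⟨i, hi, hBi⟩ := hsub B hB.prop
      have h1 : B = cl i := hB.eq_of_subset (noCut_cl hi) hBi
      interval_cases i
      · exact Or.inl h1
      · exact Or.inr h1
    · intro hB
      have : ∃ i < 2, B = cl i := by
        rcases hB with h | h
        · exact ⟨0, by norm_num, h⟩
        · exact ⟨1, by norm_num, h⟩
      obtain ⟨i, hi, rfl⟩ := this
      refine ⟨noCut_cl hi, fun B' hB' hle => ?_⟩
      obtain ⟨j, hj, hB'j⟩ := hsub B' hB'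
      have h1 : (⟨2 * i, by omega⟩ : Fin 4) ∈ cl i := by change 2 * i / 2 = i; omega
      have h2 : (2 * i) / 2 = j := hB'j (hle h1)
      have h3 : i = j := by omega
      subst h3
      exact hB'j
  unfold blocks
  rw [key]
  refine Set.ncard_pair fun h => ?_
  have h1 : (0 : Fin 4) ∈ cl 0 := rfl
  rw [h] at h1
  exact absurd h1 (by decide : ¬ (0 : Fin 4).val / 2 = 1)

/-- The pairs. -/
abbrev ea : Fin 4 × Fin 4 := (0, 1)
/-- The pairs. -/
abbrev eb : Fin 4 × Fin 4 := (2, 3)

lemma proj_surj {n : ℕ} {F F' : Finset (Fin n × Fin n)} (h : F' ⊆ F)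
    {f : (Equiv.Perm (Fin n) ⧸ young F) → ℤ} (hf : ∀ q, transfer h f q = 0) : ∀ q, f q = 0 := by
  intro q
  induction q using QuotientGroup.induction_on with
  | H g => exact hf (QuotientGroup.mk g)

lemma transfer_mk {n : ℕ} {F F' : Finset (Fin n × Fin n)} (h : F' ⊆ F)
    (f : (Equiv.Perm (Fin n) ⧸ young F) → ℤ) (g : Equiv.Perm (Fin n)) :
    transfer h f (QuotientGroup.mk g) = f (QuotientGroup.mk g) := rfl

lemma diff_mk {n : ℕ} (G : SimpleGraph (Fin n)) (c : Family n) (F' : Finset (Fin n × Fin n))
    (g : Equiv.Perm (Fin n)) :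
    diff G c F' (QuotientGroup.mk g) = ∑ e ∈ edges G \ F', (-1) ^ #{f ∈ insert e F' | lexLt f e} *
      c (insert e F') (QuotientGroup.mk g) := rfl

/-- Elements of the young subgroups. -/
lemma eqv_cls {F : Finset (Fin 4 × Fin 4)} (hF : F ⊆ {ea, eb}) {x y : Fin 4}
    (h : Relation.EqvGen (fun a b => (a, b) ∈ F) x y) : x.val / 2 = y.val / 2 := by
  induction h with
  | rel a b hab =>
    have := hF hab
    simp only [mem_insert, mem_singleton, Prod.mk.injEq] at this
    rcases this with ⟨rfl, rfl⟩ | ⟨rfl, rfl⟩ <;> rfl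
  | refl a => rfl
  | symm a b _ ih => exact ih.symm
  | trans a b c _ _ ih1 ih2 => exact ih1.trans ih2

lemma mem_young_all {σ : Equiv.Perm (Fin 4)} (h : σ ∈ young ({ea, eb} : Finset (Fin 4 × Fin 4))) :
    ∀ v, v.val / 2 = (σ v).val / 2 := fun v => eqv_cls (Finset.Subset.refl _) (h v)

lemma swap_mem_a : Equiv.swap (0 : Fin 4) 1 ∈ young ({ea} : Finset (Fin 4 × Fin 4)) := by
  intro v
  have hrel : Relation.EqvGen (fun a b => (a, b) ∈ ({ea} : Finset (Fin 4 × Fin 4))) 0 1 :=
    Relation.EqvGen.rel _ _ (by simp)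
  by_cases h0 : v = 0
  · rw [h0, Equiv.swap_apply_left]; exact hrel
  by_cases h1 : v = 1
  · rw [h1, Equiv.swap_apply_right]; exact hrel.symm
  · rw [Equiv.swap_apply_of_ne_of_ne h0 h1]; exact Relation.EqvGen.refl _

lemma swap_mem_b : Equiv.swap (2 : Fin 4) 3 ∈ young ({eb} : Finset (Fin 4 × Fin 4)) := by
  intro v
  have hrel : Relation.EqvGen (fun a b => (a, b) ∈ ({eb} : Finset (Fin 4 × Fin 4))) 2 3 :=
    Relation.EqvGen.rel _ _ (by simp)
  by_cases h0 : v = 2
  · rw [h0, Equiv.swap_apply_left]; exact hrel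
  by_cases h1 : v = 3
  · rw [h1, Equiv.swap_apply_right]; exact hrel.symm
  · rw [Equiv.swap_apply_of_ne_of_ne h0 h1]; exact Relation.EqvGen.refl _

lemma young_all_cases : ∀ σ : Equiv.Perm (Fin 4), (∀ v, v.val / 2 = (σ v).val / 2) →
    σ = 1 ∨ σ = Equiv.swap 0 1 ∨ σ = Equiv.swap 2 3 ∨ σ = Equiv.swap 0 1 * Equiv.swap 2 3 := by
  decide

/-- The homology vanishes in positive degrees. -/
lemma homology_zero {k : ℕ} (hk : 1 ≤ k) : ¬ HomologyNe G2 k := by
  rintro ⟨c, hc, hdc, hnb⟩
  apply hnb
  -- the positive part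
  have hsub : ∀ F : Finset (Fin 4 × Fin 4), F ⊆ edges G2 → F = ∅ ∨ F = {ea} ∨ F = {eb} ∨
      F = {ea, eb} := by
    intro F hF
    rw [edges_G2] at hF
    have h1 := Finset.mem_powerset.2 hF
    have h2 : ({(0, 1), (2, 3)} : Finset (Fin 4 × Fin 4)).powerset =
        {∅, {ea}, {eb}, {ea, eb}} := by decide
    rw [h2] at h1
    simpa using h1
  by_cases hk1 : k = 1
  · subst hk1
    -- the cycle condition in degree one
    have h0 : ∀ g : Equiv.Perm (Fin 4),
        c {ea} (QuotientGroup.mk g) + c {eb} (QuotientGroup.mk g) = 0 := by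
      intro g
      have h := hdc ∅ (QuotientGroup.mk g)
      rw [diff_mk, edges_G2, sdiff_empty, sum_insert (by decide), sum_singleton] at h
      have e1 : #{f ∈ insert ((0, 1) : Fin 4 × Fin 4) ∅ | lexLt f (0, 1)} = 0 := by decide
      have e2 : #{f ∈ insert ((2, 3) : Fin 4 × Fin 4) ∅ | lexLt f (2, 3)} = 0 := by decide
      rw [e1, e2, pow_zero, one_mul, one_mul] at h
      exact h
    set φ : Equiv.Perm (Fin 4) → ℤ := fun g => c {eb} (QuotientGroup.mk g) with hφ
    have hφb : ∀ g, φ (g * Equiv.swap 2 3) = φ g := by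
      intro g
      rw [hφ]
      simp only
      congr 1
      exact (QuotientGroup.eq.2 (by simpa using swap_mem_b)).symm
    have hφa : ∀ g, φ (g * Equiv.swap 0 1) = φ g := by
      intro g
      have h1 := h0 g
      have h2 := h0 (g * Equiv.swap 0 1)
      have h3 : c {ea} (QuotientGroup.mk (g * Equiv.swap 0 1)) = c {ea} (QuotientGroup.mk g) := by
        congr 1
        exact (QuotientGroup.eq.2 (by simpa using swap_mem_a)).symm
      rw [hφ]
      simp only
      linarith
    have hφab : ∀ g, ∀ σ ∈ young ({ea, eb} : Finset (Fin 4 × Fin 4)), φ (g * σ) = φ g := by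
      intro g σ hσ
      rcases young_all_cases σ (mem_young_all hσ) with h | h | h | h
      · rw [h, mul_one]
      · rw [h, hφa]
      · rw [h, hφb]
      · rw [h, ← mul_assoc, hφb, hφa]
    set b : Family 4 := fun F q => if h : F = {ea, eb} then φ (Quotient.out q) else 0 with hb
    have hbv : ∀ g, b {ea, eb} (QuotientGroup.mk g) = φ g := by
      intro g
      rw [hb]
      simp only [dif_pos]
      have h1 : (QuotientGroup.mk (Quotient.out (QuotientGroup.mk g :
          Equiv.Perm (Fin 4) ⧸ young ({ea, eb} : Finset (Fin 4 × Fin 4)))) :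
          Equiv.Perm (Fin 4) ⧸ young ({ea, eb} : Finset (Fin 4 × Fin 4))) = QuotientGroup.mk g :=
        QuotientGroup.out_eq' _
      have h2 := QuotientGroup.eq.1 h1.symm
      have h3 := hφab g _ h2
      rwa [mul_inv_cancel_left] at h3
    have hb0 : ∀ F, F ≠ {ea, eb} → ∀ q, b F q = 0 := by
      intro F hF q
      rw [hb]; simp only [dif_neg hF]
    refine ⟨b, fun F hF q => ?_, fun F q => ?_⟩
    · refine hb0 F (fun h => hF ?_) q
      rw [h, edges_G2]
      exact ⟨Finset.Subset.refl _, by decide⟩
    · induction q using QuotientGroup.induction_on with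
      | H g =>
        rw [diff_mk]
        by_cases hF : F ⊆ edges G2
        · rcases hsub F hF with rfl | rfl | rfl | rfl
          · rw [hc ∅ (fun h => by simp at h)]
            refine sum_eq_zero fun e he => ?_
            rw [hb0 _ (fun h => ?_), mul_zero]
            have := congrArg Finset.card h
            rw [show #({ea, eb} : Finset (Fin 4 × Fin 4)) = 2 by decide,
              Finset.card_insert_of_notMem (notMem_empty _)] at this
            simp at this
          · have e0 : edges G2 \ {ea} = {eb} := by rw [edges_G2]; decide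
            rw [e0, sum_singleton]
            have e1 : insert eb ({ea} : Finset (Fin 4 × Fin 4)) = {ea, eb} := by decide
            have e2 : #{f ∈ insert eb ({ea} : Finset (Fin 4 × Fin 4)) | lexLt f eb} = 1 := by decide
            have e3 : b (insert eb ({ea} : Finset (Fin 4 × Fin 4))) (QuotientGroup.mk g) =
                b {ea, eb} (QuotientGroup.mk g) := by rw [e1]
            rw [e2, e3, hbv]
            have := h0 g
            rw [hφ]; simp only
            linarith
          · have e0 : edges G2 \ {eb} = {ea} := by rw [edges_G2]; decide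
            rw [e0, sum_singleton]
            have e2 : #{f ∈ insert ea ({eb} : Finset (Fin 4 × Fin 4)) | lexLt f ea} = 0 := by decide
            rw [e2]
            have e3 : b (insert ea ({eb} : Finset (Fin 4 × Fin 4))) (QuotientGroup.mk g) =
                b {ea, eb} (QuotientGroup.mk g) := rfl
            rw [e3, hbv, hφ]
            simp
          · have e0 : edges G2 \ {ea, eb} = ∅ := by rw [edges_G2]; decide
            rw [e0, sum_empty, hc _ (fun h => ?_)]
            exact absurd h.2 (by decide)
        · rw [hc F (fun h => hF h.1)]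
          refine sum_eq_zero fun e he => ?_
          rw [hb0 _ (fun h => hF ?_), mul_zero]
          rw [edges_G2]
          have := subset_insert e F
          rw [h] at this
          exact this
  · -- all chains that are cycles vanish
    have hc0 : ∀ F q, c F q = 0 := by
      intro F
      by_cases hF : F = {ea, eb}
      · subst hF
        have h1 : edges G2 \ {ea} = {eb} := by rw [edges_G2]; decide
        have h2 : ∀ g : Equiv.Perm (Fin 4), c {ea, eb} (QuotientGroup.mk g) = 0 := by
          intro g
          have h := hdc {ea} (QuotientGroup.mk g)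
          rw [diff_mk, h1, sum_singleton] at h
          have e1 : insert eb ({ea} : Finset (Fin 4 × Fin 4)) = {ea, eb} := by decide
          have e2 : #{f ∈ insert eb ({ea} : Finset (Fin 4 × Fin 4)) | lexLt f eb} = 1 := by decide
          have e3 : c (insert eb ({ea} : Finset (Fin 4 × Fin 4))) (QuotientGroup.mk g) =
              c {ea, eb} (QuotientGroup.mk g) := by rw [e1]
          rw [e2, e3] at h
          linarith
        intro q
        induction q using QuotientGroup.induction_on with
        | H g => exact h2 g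
      · intro q
        refine hc F (fun h => ?_) q
        rcases hsub F h.1 with h1 | h1 | h1 | h1
        · rw [h1, card_empty] at h; omega
        · rw [h1, card_singleton] at h; omega
        · rw [h1, card_singleton] at h; omega
        · exact hF h1
    refine ⟨fun _ _ => 0, fun _ _ _ => rfl, fun F q => ?_⟩
    rw [hc0 F q]
    unfold diff transfer
    simp

lemma young_empty {σ : Equiv.Perm (Fin 4)} (h : σ ∈ young (∅ : Finset (Fin 4 × Fin 4))) :
    σ = 1 := by
  ext v
  have key : ∀ x y : Fin 4, Relation.EqvGen (fun a b => (a, b) ∈ (∅ : Finset (Fin 4 × Fin 4))) x y →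
      x = y := by
    intro x y h
    induction h with
    | rel a b hab => exact absurd hab (notMem_empty _)
    | refl a => rfl
    | symm a b _ ih => exact ih.symm
    | trans a b c _ _ ih1 ih2 => exact ih1.trans ih2
  rw [← key v (σ v) (h v)]
  rfl

/-- The homology does not vanish in degree zero. -/
lemma homology_ne : HomologyNe G2 0 := by
  set c : Family 4 := fun F q => if F = ∅ then (if Quotient.out q = 1 then 1 else 0) else 0 with hc
  have hcv : ∀ g : Equiv.Perm (Fin 4), c ∅ (QuotientGroup.mk g) = if g = 1 then 1 else 0 := by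
    intro g
    have h1 : (QuotientGroup.mk (Quotient.out (QuotientGroup.mk g :
        Equiv.Perm (Fin 4) ⧸ young (∅ : Finset (Fin 4 × Fin 4)))) :
        Equiv.Perm (Fin 4) ⧸ young (∅ : Finset (Fin 4 × Fin 4))) = QuotientGroup.mk g :=
      QuotientGroup.out_eq' _
    have h2 := young_empty (QuotientGroup.eq.1 h1.symm)
    have h3 : Quotient.out (QuotientGroup.mk g :
        Equiv.Perm (Fin 4) ⧸ young (∅ : Finset (Fin 4 × Fin 4))) = g := by
      rw [inv_mul_eq_one] at h2
      exact h2.symm
    rw [hc]
    simp only [if_true]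
    rw [h3]
  refine ⟨c, fun F hF q => ?_, fun F q => ?_, ?_⟩
  · rw [hc]
    simp only
    rw [if_neg]
    intro h
    exact hF ⟨by rw [h]; exact empty_subset _, by rw [h]; rfl⟩
  · unfold diff transfer
    refine sum_eq_zero fun e he => ?_
    rw [hc]
    simp only
    rw [if_neg (Finset.insert_ne_empty _ _), mul_zero]
  · rintro ⟨b, hb, hdb⟩
    have h0 : ∀ g : Equiv.Perm (Fin 4), b {ea} (QuotientGroup.mk g) +
        b {eb} (QuotientGroup.mk g) = if g = 1 then 1 else 0 := by
      intro g
      have h := hdb ∅ (QuotientGroup.mk g)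
      rw [diff_mk, edges_G2, sdiff_empty, sum_insert (by decide), sum_singleton, hcv] at h
      have e1 : #{f ∈ insert ((0, 1) : Fin 4 × Fin 4) ∅ | lexLt f (0, 1)} = 0 := by decide
      have e2 : #{f ∈ insert ((2, 3) : Fin 4 × Fin 4) ∅ | lexLt f (2, 3)} = 0 := by decide
      rw [e1, e2, pow_zero, one_mul, one_mul] at h
      exact h
    have ha : ∀ g : Equiv.Perm (Fin 4), b {ea} (QuotientGroup.mk (g * Equiv.swap 0 1)) =
        b {ea} (QuotientGroup.mk g) := by
      intro g
      congr 1
      exact (QuotientGroup.eq.2 (by simpa using swap_mem_a)).symm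
    have hb' : ∀ g : Equiv.Perm (Fin 4), b {eb} (QuotientGroup.mk (g * Equiv.swap 2 3)) =
        b {eb} (QuotientGroup.mk g) := by
      intro g
      congr 1
      exact (QuotientGroup.eq.2 (by simpa using swap_mem_b)).symm
    have x1 := h0 1
    have x2 := h0 (1 * Equiv.swap 0 1)
    have x3 := h0 (1 * Equiv.swap 2 3)
    have x4 := h0 (1 * Equiv.swap 0 1 * Equiv.swap 2 3)
    have x4' : (1 : Equiv.Perm (Fin 4)) * Equiv.swap 0 1 * Equiv.swap 2 3 =
        1 * Equiv.swap 2 3 * Equiv.swap 0 1 := by decide
    rw [if_pos rfl] at x1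
    rw [if_neg (by decide), ha] at x2
    rw [if_neg (by decide), hb'] at x3
    rw [if_neg (by decide), hb', x4', ha] at x4
    linarith

/-- Q1 fails: there is a graph `G` with `n ≥ 2` vertices such that the largest index `k` with
`H_k(G; ℤ) ≠ 0` satisfies `k + 1 < n - b`, where `b` is the number of blocks of `G`. -/
theorem result : ∃ (n : ℕ) (G : SimpleGraph (Fin n)) (k : ℕ), 2 ≤ n ∧
    IsGreatest {j | HomologyNe G j} k ∧ k + 1 < n - blocks G := by
  refine ⟨4, G2, 0, by norm_num, ⟨homology_ne, fun j hj => ?_⟩, ?_⟩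
  · by_contra hcon
    exact homology_zero (by omega) hj
  · rw [blocks_G2]; norm_num

end Pool.Agent.Results.MP_5bcb58_co.TwoEdges
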